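import Mathlib
import Pool.Agent.H723R2.LSWWander
import Pool.Agent.TH932.S2.G.Ss
import Pool.Agent.TH932.S2.G.InjS

set_option autoImplicit false

/-!
# The itineraries of the integers in wandering domains of `f₀` have superlinear complexity
-/

open Filter Topology Metric Set

namespace Pool.Agent.Results.MP_071ec9_an.ItinerariesAllScales

open Pool.Agent.H384R2.Fatou Pool.Agent.TH932.Words Pool.Agent.TH932.S2.F

/-- The entire function of Letherman, Schleicher and Wood; `f₀ n = T n` for every integer `n`, where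
`T` is the `3x+1` function. -/
noncomputable def f₀ (z : ℂ) : ℂ :=
  z / 2 + (z + 1 / 2) * ((1 - Complex.cos (Real.pi * z)) / 2) +
    1 / Real.pi * (1 / 2 - Complex.cos (Real.pi * z)) * Complex.sin (Real.pi * z)

/-- The integers whose Fatou component is a wandering domain of `f₀`. -/
def WanderingIntegers : Set ℤ := {n | IsWanderingDomain f₀ (FatouComponent f₀ n)}

/-- the 3x+1 function -/
def T (x : ℤ) : ℤ := if x % 2 = 0 then x / 2 else (3 * x + 1) / 2

/-- the number of different blocks of `N` consecutive parities in the orbit of `n` -/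
noncomputable def blocks (n : ℤ) (N : ℕ) : ℕ :=
  (Set.range (fun i : ℕ => fun j : Fin N => ((T^[i + j] n : ℤ) : ZMod 2))).ncard

/-- the number of different blocks of `N` consecutive parities among the `H` terms of the orbit of
`n` which begin with the `t`-th -/
noncomputable def blocksIn (n : ℤ) (t H N : ℕ) : ℕ :=
  ((fun i : ℕ => fun j : Fin N => ((T^[t + (i + j)] n : ℤ) : ZMod 2)) '' {i | i + N ≤ H}).ncard

theorem f_iter (k : ℕ) (x : ℤ) : f₀^[k] (x : ℂ) = ((T^[k] x : ℤ) : ℂ) :=
  Pool.Agent.H723R2.LSW.f₀_iter x k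

theorem wandering_iff (n : ℤ) : n ∈ WanderingIntegers ↔ ∀ i j : ℕ, T^[i] n = T^[j] n → i = j :=
  Pool.Agent.H723R2.LSW.wandering_iff n

theorem norm_iter (k : ℕ) (x : ℤ) : ‖f₀^[k] (x : ℂ)‖ = |((T^[k] x : ℤ) : ℝ)| := by
  rw [f_iter, Complex.norm_intCast]

lemma par_odd {a : ℤ} : ((a : ℤ) : ZMod 2) = 1 ↔ a % 2 = 1 := by
  have h1 : (1 : ZMod 2) = ((1 : ℤ) : ZMod 2) := by simp
  rw [h1, ZMod.intCast_eq_intCast_iff, Int.ModEq]
  norm_num

/-- exponents -/
def dl (a : ZMod 2) : ℕ := if a = 1 then 1 else 0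

/-- the affine maps -/
def D : Dt (ZMod 2) where
  p := 2
  q := 3
  M := 3
  δ := dl
  β := fun a => (dl a : ℤ)
  hp := le_rfl
  hq := by norm_num
  hpq := by norm_num [Int.isCoprime_iff_gcd_eq_one]
  hpM := by norm_num
  hqM := by intro a; unfold dl; split_ifs <;> norm_num
  hβM := by intro a; unfold dl; split_ifs <;> norm_num

/-- parities -/
def f (y : ℤ) : ZMod 2 := ((y : ℤ) : ZMod 2)

lemma mp : Mp D 1 f T where
  hd := isCoprime_one_left
  hG := by
    intro y
    change ((2 : ℕ) : ℤ) * T y = ((3 : ℕ) : ℤ) ^ dl (f y) * y + 1 * (dl (f y) : ℤ)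
    rcases Int.emod_two_eq_zero_or_one y with h1 | h1
    · have hw : dl (f y) = 0 := by
        unfold dl
        rw [if_neg]
        unfold f
        rw [par_odd]; omega
      rw [hw, T, if_pos h1]
      push_cast
      omega
    · have hw : dl (f y) = 1 := by
        unfold dl
        rw [if_pos]
        unfold f
        rw [par_odd]; exact h1
      rw [hw, T, if_neg (by omega)]
      push_cast
      omega

/-- **Result.**

The points `f₀^k (n)` of the orbit of an integer `n` are the integers `T^k (n)`. Let `n` be an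
integer in a wandering domain of `f₀`, and let `p (N)` be the number of different blocks of `N`
consecutive parities in its orbit.

(1) `p (N) / N` tends to infinity.

(2) For every `A` there is `K`, independent of `n`, such that for all `N ≥ K` with `|n| ≤ 2 ^ N`
more than `A N` different blocks of `N` consecutive parities occur among the first `N ^ K` terms of
the orbit.

(3) For every `A` there are `B > 0` and `K`, independent of `n`, such that for all `N ≥ K` and all
`t` with `|f₀^t (n)| ≤ e ^ (B N)` and `|f₀^(t+k) (n)| > e ^ (B N)` for `1 ≤ k ≤ K N`, more than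
`A N` different blocks of `N` consecutive parities occur among the `K N` terms of the orbit which
begin with the `t`-th.

(4) For all `A` and `R` there is `K`, independent of `n`, such that for all `t` with
`|f₀^t (n)| > K` there is an interval `[m, R m]` with `m ≥ R` and `R m ≤ log |f₀^t (n)|` such that
for all integers `N` in it more than `A N` different blocks of `N` consecutive parities occur among
the `K log |f₀^t (n)|` terms of the orbit which begin with the `t`-th. -/
theorem result :
    (∀ (k : ℕ) (n : ℤ), f₀^[k] (n : ℂ) = ((T^[k] n : ℤ) : ℂ)) ∧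
    (∀ n ∈ WanderingIntegers, Tendsto (fun N : ℕ => (blocks n N : ℝ) / N) atTop atTop) ∧
    (∀ A : ℝ, ∃ K : ℕ, ∀ n ∈ WanderingIntegers, ∀ N : ℕ, K ≤ N → |n| ≤ 2 ^ N →
      A * N < blocksIn n 0 (N ^ K) N) ∧
    (∀ A : ℝ, ∃ (B : ℝ) (K : ℕ), 0 < B ∧ ∀ n ∈ WanderingIntegers, ∀ N : ℕ, K ≤ N → ∀ t : ℕ,
      ‖f₀^[t] (n : ℂ)‖ ≤ Real.exp (B * N) →
      (∀ k, 1 ≤ k → k ≤ K * N → Real.exp (B * N) < ‖f₀^[t + k] (n : ℂ)‖) →
      A * N < blocksIn n t (K * N) N) ∧
    (∀ A R : ℝ, ∃ K : ℕ, ∀ n ∈ WanderingIntegers, ∀ t : ℕ, K < ‖f₀^[t] (n : ℂ)‖ →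
      ∃ m : ℕ, 1 ≤ m ∧ R ≤ m ∧ R * m ≤ Real.log ‖f₀^[t] (n : ℂ)‖ ∧
        ∀ N : ℕ, m ≤ N → (N : ℝ) ≤ R * m →
          A * N < blocksIn n t ⌊K * Real.log ‖f₀^[t] (n : ℂ)‖⌋₊ N) := by
  have hrec : ∀ (n : ℤ) (k : ℕ), ((2 : ℕ) : ℤ) * T^[k + 1] n
      = ((3 : ℕ) : ℤ) ^ dl (wd f T n k) * T^[k] n + (dl (wd f T n k) : ℤ) := by
    intro n k
    have h1 := mp.hG (T^[k] n)
    rw [one_mul] at h1
    rw [Function.iterate_succ_apply']
    exact h1
  have hinj : ∀ n ∈ WanderingIntegers, Function.Injective (fun k => T^[k] n) := fun n hn i j h =>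
    (wandering_iff n).1 hn i j h
  refine ⟨f_iter, fun n hn => ?_, fun A => ?_, fun A => ?_, fun A R => ?_⟩
  · exact Pool.Agent.TH932.S2.G.superlinear_all (p := 2) (q := 3) le_rfl (by norm_num)
      (by norm_num [Int.isCoprime_iff_gcd_eq_one]) dl (fun a => (dl a : ℤ)) (wd f T n)
      (fun k => T^[k] n) (hrec n) (hinj n hn)
  · obtain ⟨K, hK, h⟩ := Pool.Agent.TH932.S2.G.single_map D A 0 1
    refine ⟨K, fun n hn N hN hn2 => ?_⟩
    by_contra hcon
    push Not at hcon
    obtain ⟨i, j, hij, _, he, _⟩ := h N hN 1 f T mp (by simp) n (by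
      have h1 : |(n : ℝ)| ≤ 2 ^ N := by exact_mod_cast hn2
      refine h1.trans ?_
      have h2 : (2 : ℝ) ≤ Real.exp 1 := by
        have := Real.add_one_le_exp (1 : ℝ)
        linarith
      calc (2 : ℝ) ^ N ≤ Real.exp 1 ^ N := by gcongr
        _ = Real.exp (1 * N) := by rw [← Real.exp_nat_mul, mul_one, one_mul]) (by
      have h1 : wc (wd f T n) (N ^ K) N = blocksIn n 0 (N ^ K) N := by
        unfold wc blocksIn
        congr 1
        refine Set.image_congr fun i _ => ?_
        funext j
        simp only [fac, wd, f, zero_add]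
      rw [h1]
      exact hcon)
    have := hinj n hn he
    omega
  · obtain ⟨B, K, hB, h⟩ := Pool.Agent.TH932.S2.G.local_of (p := 2) (q := 3) le_rfl (by norm_num)
      (by norm_num [Int.isCoprime_iff_gcd_eq_one]) dl (fun a => (dl a : ℤ)) A
    refine ⟨B, K, hB, fun n hn N hN t ht hk => ?_⟩
    have h1 := h (wd f T n) (fun k => T^[k] n) (hrec n) (hinj n hn) N hN t (by
      rw [← norm_iter]; exact ht) (fun k h1 h2 => by
      rw [← norm_iter]; exact hk k h1 h2)
    have h2 : wc (fun k => wd f T n (t + k)) (K * N) N = blocksIn n t (K * N) N := by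
      unfold wc blocksIn
      congr 1
    rw [h2] at h1
    exact h1
  · obtain ⟨K, hK⟩ := Pool.Agent.TH932.S2.G.inj_scales D A R
    refine ⟨K, fun n hn t ht => ?_⟩
    rw [norm_iter] at ht ⊢
    obtain ⟨m, h1, h2, h3, h4⟩ := hK f T mp (T^[t] n) (fun i j hij => by
      simp only at hij
      rw [← Function.iterate_add_apply, ← Function.iterate_add_apply] at hij
      have := hinj n hn hij
      omega) (by exact_mod_cast ht)
    refine ⟨m, h1, h2, h3, fun N a b => ?_⟩
    have h5 := h4 N a b
    have h6 : wc (wd f T (T^[t] n)) ⌊(K : ℝ) * Real.log |((T^[t] n : ℤ) : ℝ)|⌋₊ N =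
        blocksIn n t ⌊(K : ℝ) * Real.log |((T^[t] n : ℤ) : ℝ)|⌋₊ N := by
      unfold wc blocksIn
      congr 1
      refine Set.image_congr fun i _ => ?_
      funext j
      simp only [fac, wd, f]
      rw [← Function.iterate_add_apply, add_comm t (i + (j : ℕ))]
    rw [h6] at h5
    exact h5

end Pool.Agent.Results.MP_071ec9_an.ItinerariesAllScales
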