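import Mathlib
import Pool.Agent.H723R2.LSWWander
import Pool.Agent.TH930.SP.Loc

set_option autoImplicit false

/-!
Forward orbits of the entire function `f₀` inside its wandering domains are sparse: the number of points
in an interval, with an exponent below the entropy exponent of the 3x+1 map.
-/

open Filter Topology Metric Set

namespace Pool.Agent.Results.MP_071ec9_an.OrbitsBelowEntropy

open Pool.Agent.H384R2.Fatou

/-- The entire function of Letherman, Schleicher and Wood; `f₀ n = T n` for every integer `n`, where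
`T` is the `3x+1` function. -/
noncomputable def f₀ (z : ℂ) : ℂ :=
  z / 2 + (z + 1 / 2) * ((1 - Complex.cos (Real.pi * z)) / 2) +
    1 / Real.pi * (1 / 2 - Complex.cos (Real.pi * z)) * Complex.sin (Real.pi * z)

/-- The integers whose Fatou component is a wandering domain of `f₀`. -/
def WanderingIntegers : Set ℤ := {n | IsWanderingDomain f₀ (FatouComponent f₀ n)}

/-- The entropy exponent: the binary entropy, in bits, of `log 2 / log 3`; `H = 0.94995...`. -/
noncomputable def H : ℝ := Real.binEntropy (Real.log 2 / Real.log 3) / Real.log 2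

/-- the 3x+1 function -/
def T (x : ℤ) : ℤ := if x % 2 = 0 then x / 2 else (3 * x + 1) / 2

theorem f_iter (k : ℕ) (x : ℤ) : f₀^[k] (x : ℂ) = ((T^[k] x : ℤ) : ℂ) :=
  Pool.Agent.H723R2.LSW.f₀_iter x k

/-- There are `η < H = 0.94995...` and `A` such that for every integer `n` which lies in a wandering
domain of `f₀` and every interval `[t - R, t + R]` of the real line, `R ≥ 1`, at most `A R ^ η` points of
the forward orbit of `n` lie in `[t - R, t + R]`. -/
theorem result :
    ∃ η A : ℝ, η < H ∧ 0 < A ∧ ∀ n ∈ WanderingIntegers, ∀ t R : ℝ, 1 ≤ R →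
      ({z : ℤ | |(z : ℝ) - t| ≤ R ∧ ∃ k : ℕ, f₀^[k] (n : ℂ) = z}.ncard : ℝ) ≤ A * R ^ η := by
  obtain ⟨η, A, -, hη, hA, h⟩ := Pool.Agent.TH930.SP.sparse_loc
  refine ⟨η, A, hη, hA, ?_⟩
  classical
  intro x _ y R hR
  have hfin : {z : ℤ | |(z : ℝ) - y| ≤ R ∧ ∃ k : ℕ, f₀^[k] (x : ℂ) = z}.Finite := by
    apply (Set.finite_Icc (-⌈R - y⌉) ⌈R + y⌉).subset
    intro z hz
    have h := hz.1
    rw [abs_le] at h
    have h1 := Int.le_ceil (R - y)
    have h2 := Int.le_ceil (R + y)
    constructor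
    · have : (-(⌈R - y⌉ : ℝ)) ≤ z := by linarith [h.1]
      exact_mod_cast this
    · have : (z : ℝ) ≤ ⌈R + y⌉ := by linarith [h.2]
      exact_mod_cast this
  rw [Set.ncard_eq_toFinset_card _ hfin]
  have hF : ∀ z ∈ hfin.toFinset, (∃ n : ℕ, T^[n] x = z) ∧ |(z : ℝ) - y| ≤ R := by
    intro z hz
    rw [Set.Finite.mem_toFinset] at hz
    obtain ⟨h1, k, hk⟩ := hz
    refine ⟨⟨k, ?_⟩, h1⟩
    rw [f_iter] at hk
    exact_mod_cast hk
  obtain ⟨r, hinj, hr⟩ := Pool.Agent.H319R2.G.finite_subset_path T x hfin.toFinset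
    (fun z hz => (hF z hz).1)
  have h1 := h 1 odd_one _ (Pool.Agent.H319R2.G.tame_path (Pool.Agent.TH930.EBQ.T 1) x r hinj) y R hR
    hfin.toFinset (by
      intro z hz
      obtain ⟨i, hi, he⟩ := hr z hz
      exact ⟨⟨i, hi, he⟩, (hF z hz).2⟩)
  rwa [Int.cast_one, abs_one, Real.one_rpow, mul_one] at h1

end Pool.Agent.Results.MP_071ec9_an.OrbitsBelowEntropy
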