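import Mathlib
import Pool.Agent.H723R2.LSWWander
import Pool.Agent.TH930.PS.Three

set_option autoImplicit false

/-!
The wandering domains of the entire function `f₀` which contain integers: counting bounds with
exponents beyond the entropy exponent of the 3x+1 map.
-/

open Filter Topology Metric Set

namespace Pool.Agent.Results.MP_071ec9_an.WanderingBelowEntropy

open Pool.Agent.H384R2.Fatou

/-- The entire function of Letherman, Schleicher and Wood; `f₀ n = T n` for every integer `n`, where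
`T` is the `3x+1` function. -/
noncomputable def f₀ (z : ℂ) : ℂ :=
  z / 2 + (z + 1 / 2) * ((1 - Complex.cos (Real.pi * z)) / 2) +
    1 / Real.pi * (1 / 2 - Complex.cos (Real.pi * z)) * Complex.sin (Real.pi * z)

/-- The integers whose Fatou component is a wandering domain of `f₀`. -/
def WanderingIntegers : Set ℤ := {n | IsWanderingDomain f₀ (FatouComponent f₀ n)}

/-- The number of integers `n` with `|n| ≤ X` and the property `P`. -/
noncomputable def count (P : ℤ → Prop) (X : ℝ) : ℝ := ({n : ℤ | |(n : ℝ)| ≤ X ∧ P n}.ncard : ℝ)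

/-- The entropy exponent: the binary entropy, in bits, of `log 2 / log 3`; `H = 0.94995...`. -/
noncomputable def H : ℝ := Real.binEntropy (Real.log 2 / Real.log 3) / Real.log 2

/-! ### the 3x+1 function -/

/-- the 3x+1 function -/
def T (x : ℤ) : ℤ := if x % 2 = 0 then x / 2 else (3 * x + 1) / 2

theorem f_iter (k : ℕ) (x : ℤ) : f₀^[k] (x : ℂ) = ((T^[k] x : ℤ) : ℂ) :=
  Pool.Agent.H723R2.LSW.f₀_iter x k

theorem wandering_iff (n : ℤ) : n ∈ WanderingIntegers ↔ ∀ i j : ℕ, T^[i] n = T^[j] n → i = j :=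
  Pool.Agent.H723R2.LSW.wandering_iff n

theorem wandering_iter {n : ℤ} (h : n ∈ WanderingIntegers) (k : ℕ) : T^[k] n ∈ WanderingIntegers := by
  rw [wandering_iff] at h ⊢
  intro i j hij
  rw [← Function.iterate_add_apply, ← Function.iterate_add_apply] at hij
  have := h _ _ hij
  omega

theorem norm_iter (k : ℕ) (x : ℤ) : ‖f₀^[k] (x : ℂ)‖ = |((T^[k] x : ℤ) : ℝ)| := by
  rw [f_iter, Complex.norm_intCast]

theorem fin_set (P : ℤ → Prop) (X : ℝ) : {x : ℤ | |(x : ℝ)| ≤ X ∧ P x}.Finite := by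
  apply (Set.finite_Icc (-⌈X⌉) ⌈X⌉).subset
  rintro x ⟨hx, -⟩
  have h1 := abs_le.1 hx
  have h2 := Int.le_ceil X
  rw [Set.mem_Icc]
  constructor
  · have : (-(⌈X⌉ : ℤ) : ℝ) ≤ x := by linarith
    exact_mod_cast this
  · have : (x : ℝ) ≤ (⌈X⌉ : ℤ) := by linarith
    exact_mod_cast this

theorem count_mono {P Q : ℤ → Prop} {X : ℝ} (h : ∀ x : ℤ, |(x : ℝ)| ≤ X → P x → Q x) :
    count P X ≤ count Q X := by
  have hsub : {x : ℤ | |(x : ℝ)| ≤ X ∧ P x} ⊆ {x : ℤ | |(x : ℝ)| ≤ X ∧ Q x} :=
    fun x hx => ⟨hx.1, h x hx.1 hx.2⟩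
  have h1 := Set.ncard_le_ncard hsub (fin_set Q X)
  unfold count
  exact_mod_cast h1

theorem count_nonneg (P : ℤ → Prop) (X : ℝ) : 0 ≤ count P X := Nat.cast_nonneg _

/-- the orbit stays outside `[-y, y]` -/
theorem high : ∃ c : ℝ, 1 - H < c ∧ c < 1 ∧ ∃ A : ℝ, 0 < A ∧ ∀ X y : ℝ, 1 ≤ X → 1 ≤ y →
    count (fun x => ∀ n : ℕ, y < |((T^[n] x : ℤ) : ℝ)|) X ≤ A * X / y ^ c := by
  obtain ⟨c, hc, A, hA, h⟩ := Pool.Agent.TH930.PS.three' (k := 1) odd_one
  have hb := Pool.Agent.TH930.PS.beta_pos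
  have hcH : 1 - H < c := hc
  have hH : 0 < H := hb
  refine ⟨min c (1 - H / 2), lt_min hcH (by linarith), (min_le_right _ _).trans_lt (by linarith),
    A, hA, fun X y hX hy => (h X y hX hy).trans ?_⟩
  have h1 : y ^ (min c (1 - H / 2)) ≤ y ^ c := Real.rpow_le_rpow_of_exponent_le hy (min_le_left _ _)
  have h2 : 0 < y ^ (min c (1 - H / 2)) := Real.rpow_pos_of_pos (by linarith) _
  exact div_le_div_of_nonneg_left (by positivity) h2 h1

/-- the orbit never falls below its starting point -/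
def Min (x : ℤ) : Prop := ∀ n : ℕ, |(x : ℝ)| ≤ |((T^[n] x : ℤ) : ℝ)|

/-- the number of integers whose orbit never falls below its starting point -/
theorem min_count {c A : ℝ} (hc1 : c < 1) (h : ∀ X y : ℝ, 1 ≤ X → 1 ≤ y →
    count (fun x => ∀ n : ℕ, y < |((T^[n] x : ℤ) : ℝ)|) X ≤ A * X / y ^ c) :
    ∃ B : ℝ, 0 < B ∧ ∀ X : ℝ, 1 ≤ X → count Min X ≤ B * X ^ (1 - c) := by
  have hη : 0 < 1 - c := by linarith
  have h2 : (2 : ℝ) ^ (-(1 - c)) < 1 := Real.rpow_lt_one_of_one_lt_of_neg (by norm_num) (by linarith)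
  have h3 : 0 < 1 - (2 : ℝ) ^ (-(1 - c)) := by linarith
  have h2c : (0 : ℝ) < 2 ^ c := Real.rpow_pos_of_pos (by norm_num) _
  set B : ℝ := max 3 (A * 2 ^ c / (1 - 2 ^ (-(1 - c)))) with hB
  have hB3 : 3 ≤ B := le_max_left _ _
  have hBA : A * 2 ^ c ≤ B * (1 - 2 ^ (-(1 - c))) := by
    have := le_max_right 3 (A * 2 ^ c / (1 - 2 ^ (-(1 - c))))
    rw [← hB, div_le_iff₀ h3] at this
    exact this
  refine ⟨B, by linarith, ?_⟩
  have key : ∀ n : ℕ, ∀ X : ℝ, 1 ≤ X → X < 2 ^ n → count Min X ≤ B * X ^ (1 - c) := by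
    intro n
    induction n with
    | zero => intro X h1 h2; norm_num at h2; linarith
    | succ n ih =>
      intro X hX hXn
      rcases lt_or_ge X 2 with hX2 | hX2
      · -- at most three integers
        have e1 : count Min X ≤ 3 := by
          have hsub : {x : ℤ | |(x : ℝ)| ≤ X ∧ Min x} ⊆ (({-1, 0, 1} : Finset ℤ) : Set ℤ) := by
            rintro x ⟨hx, -⟩
            have h5 : |(x : ℝ)| < 2 := by linarith
            have h6 : |x| < 2 := by exact_mod_cast h5
            rw [abs_lt] at h6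
            have : x = -1 ∨ x = 0 ∨ x = 1 := by omega
            simpa using this
          have h7 := Set.ncard_le_ncard hsub (Finset.finite_toSet _)
          rw [Set.ncard_coe_finset] at h7
          have h8 : (({-1, 0, 1} : Finset ℤ)).card = 3 := by decide
          rw [h8] at h7
          unfold count
          exact_mod_cast h7
        have e2 : 1 ≤ X ^ (1 - c) := Real.one_le_rpow hX hη.le
        nlinarith
      · have e0 : 1 ≤ X / 2 := by linarith
        have e1 := ih (X / 2) e0 (by rw [pow_succ] at hXn; linarith)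
        have e2 := h X (X / 2) hX e0
        have e3 : count Min X ≤ count Min (X / 2) +
            count (fun x => ∀ n : ℕ, X / 2 < |((T^[n] x : ℤ) : ℝ)|) X := by
          unfold count
          have hsub : {x : ℤ | |(x : ℝ)| ≤ X ∧ Min x} ⊆ {x : ℤ | |(x : ℝ)| ≤ X / 2 ∧ Min x} ∪
              {x : ℤ | |(x : ℝ)| ≤ X ∧ ∀ n : ℕ, X / 2 < |((T^[n] x : ℤ) : ℝ)|} := by
            rintro x ⟨hx1, hx2⟩
            rcases le_or_gt |(x : ℝ)| (X / 2) with h5 | h5
            · left; exact ⟨h5, hx2⟩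
            · right; exact ⟨hx1, fun n => h5.trans_le (hx2 n)⟩
          have h6 := Set.ncard_le_ncard hsub ((fin_set _ _).union (fin_set _ _))
          have h7 := h6.trans (Set.ncard_union_le _ _)
          exact_mod_cast h7
        have hX0 : 0 < X := by linarith
        have e4 : (X / 2) ^ (1 - c) = X ^ (1 - c) * 2 ^ (-(1 - c)) := by
          rw [Real.div_rpow hX0.le (by norm_num), Real.rpow_neg (by norm_num), div_eq_mul_inv]
        have e5 : A * X / (X / 2) ^ c = A * 2 ^ c * X ^ (1 - c) := by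
          rw [Real.div_rpow hX0.le (by norm_num), Real.rpow_sub hX0, Real.rpow_one]
          have : 0 < X ^ c := Real.rpow_pos_of_pos hX0 _
          field_simp
        rw [e4] at e1
        rw [e5] at e2
        have e6 : 0 ≤ X ^ (1 - c) := Real.rpow_nonneg hX0.le _
        calc count Min X ≤ B * (X ^ (1 - c) * 2 ^ (-(1 - c))) + A * 2 ^ c * X ^ (1 - c) := by
              linarith
          _ ≤ B * (X ^ (1 - c) * 2 ^ (-(1 - c))) + B * (1 - 2 ^ (-(1 - c))) * X ^ (1 - c) := by
              have := mul_le_mul_of_nonneg_right hBA e6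
              linarith
          _ = B * X ^ (1 - c) := by ring
  intro X hX
  obtain ⟨n, hn⟩ := pow_unbounded_of_one_lt X (by norm_num : (1 : ℝ) < 2)
  exact key n X hX hn

/-- the element of least absolute value of a forward orbit -/
theorem exists_min (x : ℤ) : ∃ k : ℕ, |((T^[k] x : ℤ) : ℝ)| ≤ |(x : ℝ)| ∧ Min (T^[k] x) := by
  classical
  have h1 : ∃ m : ℕ, ∃ k : ℕ, (T^[k] x).natAbs = m := ⟨_, 0, rfl⟩
  obtain ⟨k, hk⟩ := Nat.find_spec h1
  have h2 : ∀ j : ℕ, (T^[k] x).natAbs ≤ (T^[j] x).natAbs := by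
    intro j
    rw [hk]
    exact Nat.find_min' h1 ⟨j, rfl⟩
  have h3 : ∀ z : ℤ, |(z : ℝ)| = (z.natAbs : ℝ) := by
    intro z
    rw [← Int.cast_abs, Int.abs_eq_natAbs, Int.cast_natCast]
  refine ⟨k, ?_, ?_⟩
  · rw [h3, h3]
    exact_mod_cast h2 0
  · intro n
    rw [h3, h3, ← Function.iterate_add_apply]
    exact_mod_cast h2 (n + k)

/-- Let `H = 0.94995...` be the entropy exponent. There are `c > 1 - H` and `A` with the following
properties.

(1) For all `X, y ≥ 1` at most `A X / y ^ c` of the integers `n`, `|n| ≤ X`, lie in a wandering domain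
of `f₀` and have a forward orbit that stays outside the disc of radius `y`; in particular, if no integer
of `[-y, y]` lies in a wandering domain, then at most `A X / y ^ c` of the integers of `[-X, X]` do.

(2) For every `X ≥ 1` there is a set `M` of at most `A X ^ (1 - c)` integers in wandering domains such
that the forward orbit of every integer `n` of `[-X, X]` which lies in a wandering domain passes through
a member `m` of `M`, with `|m| ≤ |n|`; in particular the wandering domains containing integers of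
`[-X, X]` belong to at most `A X ^ (1 - c)` grand orbits. -/
theorem result :
    ∃ c A : ℝ, 1 - H < c ∧ 0 < A ∧
      (∀ X y : ℝ, 1 ≤ X → 1 ≤ y →
        count (fun n => n ∈ WanderingIntegers ∧ ∀ k : ℕ, y < ‖f₀^[k] (n : ℂ)‖) X ≤ A * X / y ^ c ∧
        ((∀ m : ℤ, |(m : ℝ)| ≤ y → m ∉ WanderingIntegers) →
          count (fun n => n ∈ WanderingIntegers) X ≤ A * X / y ^ c)) ∧
      (∀ X : ℝ, 1 ≤ X → ∃ M : Finset ℤ, (M.card : ℝ) ≤ A * X ^ (1 - c) ∧
        (∀ m ∈ M, m ∈ WanderingIntegers) ∧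
        ∀ n : ℤ, |(n : ℝ)| ≤ X → n ∈ WanderingIntegers →
          ∃ m ∈ M, |(m : ℝ)| ≤ |(n : ℝ)| ∧ ∃ k : ℕ, f₀^[k] (n : ℂ) = m) := by
  obtain ⟨c, hc, hc1, A, hA, h⟩ := high
  obtain ⟨B, hB, h'⟩ := min_count hc1 h
  refine ⟨c, max A B, hc, lt_max_of_lt_left hA, fun X y hX hy => ?_, fun X hX => ?_⟩
  · have h1 : count (fun n => n ∈ WanderingIntegers ∧ ∀ k : ℕ, y < ‖f₀^[k] (n : ℂ)‖) X ≤
        max A B * X / y ^ c := by
      have hy0 : (0 : ℝ) < y ^ c := Real.rpow_pos_of_pos (by linarith) _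
      refine ((count_mono ?_).trans (h X y hX hy)).trans ?_
      · rintro x - ⟨-, hx⟩ n
        have := hx n
        rwa [norm_iter] at this
      · exact div_le_div_of_nonneg_right (mul_le_mul_of_nonneg_right (le_max_left _ _) (by linarith))
          hy0.le
    refine ⟨h1, fun hm => (count_mono ?_).trans h1⟩
    intro x _ hx
    refine ⟨hx, fun k => ?_⟩
    rw [norm_iter]
    by_contra hcon
    push Not at hcon
    exact hm _ hcon (wandering_iter hx k)
  · classical
    refine ⟨((fin_set Min X).toFinset).filter fun m => m ∈ WanderingIntegers, ?_, ?_, ?_⟩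
    · have h1 := h' X hX
      unfold count at h1
      rw [Set.ncard_eq_toFinset_card _ (fin_set Min X)] at h1
      have h2 : B * X ^ (1 - c) ≤ max A B * X ^ (1 - c) :=
        mul_le_mul_of_nonneg_right (le_max_right _ _) (Real.rpow_nonneg (by linarith) _)
      refine le_trans ?_ (h1.trans h2)
      exact_mod_cast Finset.card_filter_le _ _
    · intro m hm
      exact (Finset.mem_filter.1 hm).2
    · intro n hn hw
      obtain ⟨k, hk1, hk2⟩ := exists_min n
      refine ⟨T^[k] n, ?_, hk1, k, f_iter k n⟩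
      rw [Finset.mem_filter]
      refine ⟨?_, wandering_iter hw k⟩
      rw [Set.Finite.mem_toFinset]
      exact ⟨hk1.trans hn, hk2⟩

end Pool.Agent.Results.MP_071ec9_an.WanderingBelowEntropy
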