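import Pool.Agent.TH237.RT.Int
import Pool.Agent.H723R2.LSWWander

set_option autoImplicit false

/-! Counting the integers in wandering domains of the entire `3x+1` interpolation `f₀`, and the
integers in any set which is completely invariant under `f₀`, with an error term. -/

open Filter Topology Metric Set

namespace Pool.Agent.Results.MP_071ec9_an.WanderingCount

open Pool.Agent.H384R2.Fatou

/-- The entire function of Letherman, Schleicher and Wood; `f₀ n = T n` for every integer `n`, where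
`T` is the `3x+1` function. -/
noncomputable def f₀ (z : ℂ) : ℂ :=
  z / 2 + (z + 1 / 2) * ((1 - Complex.cos (Real.pi * z)) / 2) +
    1 / Real.pi * (1 / 2 - Complex.cos (Real.pi * z)) * Complex.sin (Real.pi * z)

/-- The integers whose Fatou component is a wandering domain of `f₀`. -/
def WanderingIntegers : Set ℤ := {n | IsWanderingDomain f₀ (FatouComponent f₀ n)}

/-- the number of the integers `n` in `S` with `0 < s n ≤ X` -/
noncomputable def count (s : ℤ) (S : Set ℤ) (X : ℝ) : ℝ :=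
  ({n : ℤ | 0 < s * n ∧ ((s * n : ℤ) : ℝ) ≤ X ∧ n ∈ S}.ncard : ℝ)

/-- There is a constant `C` such that for `s = 1` and for `s = -1`:
(1) if the set `S` of integers contains the integer `n` of sign `s` if and only if it contains
`f₀ n`, then for some `δ` the number of the `n ∈ S` with `0 < s n ≤ X` is `δ X` with an error of at
most `C X / (log X)^(1/30)`, for all real `X ≥ 2`; `C` does not depend on `S`; `δ` is `0` only if `S`
contains no integer of sign `s`, `1` only if it contains all of them;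
(2) in particular for some `w` the number of the integers `n` in wandering domains of `f₀` with
`0 < s n ≤ X` is `w X` with an error of at most `C X / (log X)^(1/30)`, for all real `X ≥ 2`; `w` is
`0` only if there are no such `n`. -/
theorem result : ∃ C : ℝ, 0 < C ∧ ∀ s : ℤ, (s = 1 ∨ s = -1) →
    (∀ S : Set ℤ, (∀ n m : ℤ, 0 < s * n → f₀ (n : ℂ) = m → (n ∈ S ↔ m ∈ S)) →
      ∃ δ : ℝ, 0 ≤ δ ∧ δ ≤ 1 ∧ (δ = 0 ↔ ∀ n : ℤ, 0 < s * n → n ∉ S) ∧
        (δ = 1 ↔ ∀ n : ℤ, 0 < s * n → n ∈ S) ∧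
        ∀ X : ℝ, 2 ≤ X → |count s S X - δ * X| ≤ C * X / (Real.log X) ^ (1 / 30 : ℝ)) ∧
    ∃ w : ℝ, 0 ≤ w ∧ w < 1 ∧ (w = 0 ↔ ∀ n : ℤ, 0 < s * n → n ∉ WanderingIntegers) ∧
      ∀ X : ℝ, 2 ≤ X →
        |count s WanderingIntegers X - w * X| ≤ C * X / (Real.log X) ^ (1 / 30 : ℝ) := by
  obtain ⟨C, hC, h⟩ := Pool.Agent.TH237.RT.int_rate
  have hT : ∀ n : ℤ, Pool.Agent.H723R2.LSW.T n = Pool.Agent.H499R2.ND.Td 1 n := fun n => rfl
  have hf : ∀ n m : ℤ, f₀ (n : ℂ) = m ↔ Pool.Agent.H499R2.ND.Td 1 n = m := by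
    intro n m
    have h1 : f₀ (n : ℂ) = (Pool.Agent.H723R2.LSW.T n : ℂ) := Pool.Agent.H723R2.LSW.f₀_int n
    rw [h1, ← hT]
    exact_mod_cast Iff.rfl
  have hW : ∀ n : ℤ, n ∈ WanderingIntegers ↔ Pool.Agent.H723R2.LSW.Wild n :=
    fun n => Pool.Agent.H723R2.LSW.wandering_iff n
  have hwild : ∀ n : ℤ, Pool.Agent.H723R2.LSW.Wild n ↔
      Pool.Agent.H723R2.LSW.Wild (Pool.Agent.H723R2.LSW.T n) := by
    intro n
    constructor
    · intro hn i j hij
      have := hn (i + 1) (j + 1) (by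
        rw [Function.iterate_succ_apply, Function.iterate_succ_apply]; exact hij)
      omega
    · intro hn
      by_contra hcon
      obtain ⟨k, p, a, hp, ha, hk⟩ := Pool.Agent.H723R2.LSW.tame_hits hcon
      have h1 : Pool.Agent.H723R2.LSW.T^[k] (Pool.Agent.H723R2.LSW.T n) =
          Pool.Agent.H723R2.LSW.T a := by
        rw [← Function.iterate_succ_apply, Function.iterate_succ_apply', hk]
      have h2 : Pool.Agent.H723R2.LSW.T^[p + k] (Pool.Agent.H723R2.LSW.T n) =
          Pool.Agent.H723R2.LSW.T a := by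
        rw [Function.iterate_add_apply, h1, ← Function.iterate_succ_apply,
          Function.iterate_succ_apply', ha]
      have := hn _ _ (h1.trans h2.symm)
      omega
  have main : ∀ s : ℤ, (s = 1 ∨ s = -1) → ∀ S : Set ℤ,
      (∀ n m : ℤ, 0 < s * n → f₀ (n : ℂ) = m → (n ∈ S ↔ m ∈ S)) →
      ∃ δ : ℝ, 0 ≤ δ ∧ δ ≤ 1 ∧ (δ = 0 ↔ ∀ n : ℤ, 0 < s * n → n ∉ S) ∧
        (δ = 1 ↔ ∀ n : ℤ, 0 < s * n → n ∈ S) ∧
        ∀ X : ℝ, 2 ≤ X → |count s S X - δ * X| ≤ C * X / (Real.log X) ^ (1 / 30 : ℝ) :=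
    fun s hs S hS => h s hs S (fun x hx => hS x _ hx ((hf x _).2 rfl))
  refine ⟨C, hC, fun s hs => ⟨main s hs, ?_⟩⟩
  obtain ⟨w, w0, w1, w2, w3, w4⟩ := main s hs WanderingIntegers (fun n m _ hnm => by
    rw [hW, hW, hwild n, hT, (hf n m).1 hnm])
  refine ⟨w, w0, ?_, w2, w4⟩
  rcases w1.lt_or_eq with h1 | h1
  · exact h1
  · exfalso
    have h2 := w3.1 h1 s (by rcases hs with rfl | rfl <;> norm_num)
    rw [hW] at h2
    have h3 : Pool.Agent.H723R2.LSW.T^[2] s = s := by
      rcases hs with rfl | rfl <;> decide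
    have := h2 2 0 (by rw [h3]; rfl)
    omega

end Pool.Agent.Results.MP_071ec9_an.WanderingCount
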